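import Mathlib

set_option autoImplicit false

namespace Pool.Agent.Results.MP_405999_gt.Holds

open Filter Topology

universe u

variable {L : Type u} [Order.Frame L]

def IsFil (F : Set L) : Prop :=
  ⊤ ∈ F ∧ (∀ a ∈ F, ∀ b, a ≤ b → b ∈ F) ∧ ∀ a ∈ F, ∀ b ∈ F, a ⊓ b ∈ F

def Scott (F : Set L) : Prop :=
  ∀ d : Set L, d.Nonempty → DirectedOn (· ≤ ·) d → sSup d ∈ F → ∃ a ∈ d, a ∈ F

def join (F G : Set L) : Set L := {w | ∃ a ∈ F, ∃ b ∈ G, w = a ⊓ b}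

def Temperate (L : Type u) [Order.Frame L] : Prop :=
  ∀ F G : Set L, IsFil F → IsFil G → Scott F → Scott G → Scott (join F G)

def LSS (X : Type u) [TopologicalSpace X] : Prop :=
  ∀ U : Ultrafilter X, {x | (U : Filter X) ≤ 𝓝 x} = ∅ ∨
    ∃! x, {y | (U : Filter X) ≤ 𝓝 y} = closure {x}

lemma join_fil {F G : Set L} (hF : IsFil F) (hG : IsFil G) : IsFil (join F G) := by
  refine ⟨⟨⊤, hF.1, ⊤, hG.1, by simp⟩, ?_, ?_⟩
  · rintro _ ⟨a, ha, b, hb, rfl⟩ w hw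
    exact ⟨w ⊔ a, hF.2.1 a ha _ le_sup_right, w ⊔ b, hG.2.1 b hb _ le_sup_right,
      by rw [← sup_inf_left, sup_eq_left.2 hw]⟩
  · rintro _ ⟨a, ha, b, hb, rfl⟩ _ ⟨c, hc, d, hd, rfl⟩
    exact ⟨a ⊓ c, hF.2.2 a ha c hc, b ⊓ d, hG.2.2 b hb d hd, inf_inf_inf_comm _ _ _ _⟩

lemma hm {F : Set L} (hF : IsFil F) (hS : Scott F) {w : L} (hw : w ∉ F) :
    ∃ z : Locale.PT L, (∀ a ∈ F, z a) ∧ ¬ z w := by
  obtain ⟨m, hwm, hm⟩ := zorn_le_nonempty₀ Fᶜ (fun c hc hch y hy =>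
    ⟨sSup c, fun h => by
      obtain ⟨a, ha, haF⟩ := hS c ⟨y, hy⟩ hch.directedOn h
      exact hc ha haF, fun z hz => le_sSup hz⟩) w hw
  have up : ∀ a, ¬ a ≤ m → m ⊔ a ∈ F := fun a ha => by
    by_contra h
    exact ha (le_sup_right.trans (hm.2 h le_sup_left))
  refine ⟨⟨⟨⟨fun a => ¬ a ≤ m, fun a b => propext ⟨fun h => ?_, fun h h2 => ?_⟩⟩, ?_⟩, ?_⟩,
    fun a ha h => hm.1 (hF.2.1 a ha m h), fun h => h hwm⟩
  · exact ⟨fun h2 => h (inf_le_left.trans h2), fun h2 => h (inf_le_right.trans h2)⟩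
  · have := hF.2.2 _ (up a h.1) _ (up b h.2)
    rw [← sup_inf_left, sup_eq_left.2 h2] at this
    exact hm.1 this
  · exact propext ⟨fun _ => trivial, fun _ h => hm.1 (hF.2.1 ⊤ hF.1 m h)⟩
  · intro s
    simp [Prop.exists_iff]

lemma mono (x : Locale.PT L) {a b : L} (h : a ≤ b) (ha : x a) : x b :=
  OrderHomClass.mono x h ha

lemma pt_fil (x : Locale.PT L) : IsFil {a | x a} ∧ Scott {a | x a} := by
  refine ⟨⟨by simp, fun a ha b h => mono x h ha, fun a ha b hb => ?_⟩, fun d _ _ h => ?_⟩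
  · show x (a ⊓ b)
    rw [InfHomClass.map_inf]; exact ⟨ha, hb⟩
  · have : x (sSup d) := h
    simpa [Prop.exists_iff] using this

lemma lim_iff (U : Ultrafilter (Locale.PT L)) (x : Locale.PT L) :
    (U : Filter _) ≤ 𝓝 x ↔ ∀ a, x a → {y : Locale.PT L | y a} ∈ U := by
  rw [le_nhds_iff]
  exact ⟨fun h a ha => h _ ha ⟨a, rfl⟩, by rintro h _ hx ⟨a, rfl⟩; exact h a hx⟩

lemma cl_iff (x y : Locale.PT L) : y ∈ closure {x} ↔ ∀ a, y a → x a := by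
  rw [mem_closure_iff]
  refine ⟨fun h a ha => ?_, ?_⟩
  · obtain ⟨_, h1, rfl⟩ := h _ ⟨a, rfl⟩ ha
    exact h1
  · rintro h _ ⟨a, rfl⟩ ha
    exact ⟨x, h a ha, rfl⟩

theorem result (L : Type u) [Order.Frame L] (h : Temperate L) : LSS (Locale.PT L) := by
  intro U
  refine or_iff_not_imp_left.2 fun hne => ?_
  obtain ⟨x, hx⟩ := Set.nonempty_iff_ne_empty.2 hne
  let Ψ : Set L := {a | {y : Locale.PT L | y a} ∈ U}
  have Ψinf : ∀ a ∈ Ψ, ∀ b ∈ Ψ, a ⊓ b ∈ Ψ := fun a ha b hb =>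
    mem_of_superset (inter_mem ha hb) fun y hy => (pt_fil y).1.2.2 a hy.1 b hy.2
  let Φ : Set L := {a | ∃ F, IsFil F ∧ Scott F ∧ F ⊆ Ψ ∧ a ∈ F}
  have hΦ : IsFil Φ := by
    refine ⟨⟨_, (pt_fil x).1, (pt_fil x).2, (lim_iff U x).1 hx, (pt_fil x).1.1⟩, ?_, ?_⟩
    · rintro a ⟨F, h1, h2, h3, h4⟩ b hab
      exact ⟨F, h1, h2, h3, h1.2.1 a h4 b hab⟩
    · rintro a ⟨F, h1, h2, h3, h4⟩ b ⟨G, g1, g2, g3, g4⟩
      refine ⟨join F G, join_fil h1 g1, h F G h1 g1 h2 g2, ?_, a, h4, b, g4, rfl⟩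
      rintro _ ⟨c, hc, d, hd, rfl⟩
      exact Ψinf c (h3 hc) d (g3 hd)
  have hS : Scott Φ := by
    rintro d h1 h2 ⟨F, f1, f2, f3, f4⟩
    obtain ⟨a, ha, haF⟩ := f2 d h1 h2 f4
    exact ⟨a, ha, F, f1, f2, f3, haF⟩
  have hd : sSup Ψᶜ ∉ Φ := by
    intro hd
    obtain ⟨a, ha, F, -, -, f3, f4⟩ := hS _ ⟨⊥, by simp [Ψ]⟩ (fun a ha b hb =>
      ⟨a ⊔ b, fun hab => by
        have : {y : Locale.PT L | y a} ∪ {y : Locale.PT L | y b} ∈ U :=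
          mem_of_superset hab fun y hy => by
            have : y (a ⊔ b) := hy
            rwa [SupHomClass.map_sup] at this
        exact (Ultrafilter.union_mem_iff.1 this).elim ha hb, le_sup_left, le_sup_right⟩) hd
    exact ha (f3 f4)
  obtain ⟨z, hz, hz'⟩ := hm hΦ hS hd
  have zl : ∀ a, z a → a ∈ Ψ := fun a ha => by
    by_contra hc
    exact hz' (mono z (le_sSup hc) ha)
  have key : {y | (U : Filter _) ≤ 𝓝 y} = closure {z} := by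
    ext y
    rw [cl_iff, Set.mem_setOf_eq, lim_iff]
    exact ⟨fun hy a ha => hz a ⟨_, (pt_fil y).1, (pt_fil y).2, hy, ha⟩,
      fun hy a ha => zl a (hy a ha)⟩
  refine ⟨z, key, fun w hw => ?_⟩
  rw [key] at hw
  have h1 := (cl_iff z w).1 (hw ▸ subset_closure rfl)
  have h2 := (cl_iff w z).1 (hw ▸ subset_closure rfl)
  exact DFunLike.ext _ _ fun a => propext ⟨h1 a, h2 a⟩

end Pool.Agent.Results.MP_405999_gt.Holds
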